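import Pool.Agent.R561.Main

/-!
# An efficient exact uniform sampler for spanning trees of simplicial complexes

There are a randomized Turing machine `M` and polynomials `p`, `q` such that for every finite
simplicial complex `Δ` of any dimension `d ≥ 1`, given as the list `L` of all its faces:

* every spanning tree of `Δ` is output with probability exactly one over the number of spanning
  trees;
* almost surely the machine halts and its output is a spanning tree of `Δ`;
* the expected running time is at most `p` of the length of the input;
* the expected running time is at most `q(n)`, where `n` is the number of faces, if the vertices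
  are numbers less than `n`.

The algorithm runs the basis exchange walk of the matroid of the top boundary map for polynomially
many steps, with a precision of `2 ^ (-s)`, and with probability `2 ^ (-s)` replaces its result by
an exact correction computed in exponential time. The rapid mixing of the walk is proved from
scratch.
-/

set_option autoImplicit false

namespace Pool.Agent.Results.MP_d8fb5e_lc.ExactSampler

open Pool.Agent.NPC Pool.Agent.R561
open MeasureTheory
open scoped ENNReal

theorem result : ∃ (M : PTM) (p q : Polynomial ℕ), ∀ (Δ : Finset (Finset ℕ)) (d : ℕ)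
    (L : List (List ℕ)), IsComplex Δ → 1 ≤ d → HasDim Δ d → Lists L Δ →
    (∀ Υ, IsSpanningTree Δ d Υ →
      coins {ω | M.Outputs (bits L) ω (bits (subList L Υ))} =
        ((({Υ | IsSpanningTree Δ d Υ}.ncard : ℕ) : ℝ≥0∞))⁻¹) ∧
    (∀ᵐ ω ∂coins, ∃ Υ, IsSpanningTree Δ d Υ ∧ M.Outputs (bits L) ω (bits (subList L Υ))) ∧
    ∫⁻ ω, M.time (bits L) ω ∂coins ≤ ((p.eval (bits L).length : ℕ) : ℝ≥0∞) ∧
    ((∀ s ∈ Δ, ∀ v ∈ s, v < Δ.card) →
      ∫⁻ ω, M.time (bits L) ω ∂coins ≤ ((q.eval Δ.card : ℕ) : ℝ≥0∞)) :=
  main

end Pool.Agent.Results.MP_d8fb5e_lc.ExactSampler
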